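import Mathlib
import Pool.Agent.V11268.SS.Roots

set_option autoImplicit false

namespace Pool.Agent.Results.MP_bf7c2b_nt.SharpForFour

open Polynomial ComplexConjugate Filter Topology Pool.Agent.V11268.SS

/-- The conjugates of `α`: the complex roots of its minimal polynomial over `ℚ`. -/
noncomputable def conjugates (α : ℂ) : Finset ℂ := ((minpoly ℚ α).aroots ℂ).toFinset

/-- The absolute square size of `α`: each real conjugate contributes its square, each pair of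
non-real conjugates its common squared modulus once (so each non-real one contributes one half). -/
noncomputable def squareSize (α : ℂ) : ℝ :=
  ∑ z ∈ (conjugates α).filter (fun z => z.im = 0), ‖z‖ ^ 2 +
    (∑ z ∈ (conjugates α).filter (fun z => z.im ≠ 0), ‖z‖ ^ 2) / 2

noncomputable def del (k : ℕ) : ℝ := (Real.log (3 * k / 2) + Real.log 9) / (k - 1)

noncomputable def rho (k : ℕ) : ℝ := 1 / 2 - 3 / 2 * (1 / 2) ^ k

theorem mem_conjugates (j : ℕ) (hj : 1 ≤ j) (α : ℂ) (hα : aeval (α ^ 2) (G (3 ^ j)) = 0)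
    (z : ℂ) : z ∈ conjugates α ↔ aeval (z ^ 2) (G (3 ^ j)) = 0 := by
  have hk : 3 ≤ 3 ^ j := by
    calc 3 = 3 ^ 1 := by norm_num
      _ ≤ 3 ^ j := Nat.pow_le_pow_right (by norm_num) hj
  obtain ⟨hPm, hPd⟩ := comp_facts (3 ^ j) hk
  have hint : IsIntegral ℤ α := ⟨_, hPm, by
    rw [← aeval_def, aeval_comp, map_pow, aeval_X]; exact hα⟩
  have hmin := minpoly_eq j hj α hα
  have hminQ : minpoly ℚ α = ((G (3 ^ j)).comp (X ^ 2)).map (algebraMap ℤ ℚ) := by
    rw [minpoly.isIntegrallyClosed_eq_field_fractions' ℚ hint, hmin]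
  have hne : minpoly ℚ α ≠ 0 := minpoly.ne_zero hint.tower_top
  rw [conjugates, Multiset.mem_toFinset, mem_aroots, and_iff_right hne, hminQ,
    aeval_map_algebraMap, aeval_comp, map_pow, aeval_X]

theorem natDegree_minpoly (j : ℕ) (hj : 1 ≤ j) (α : ℂ)
    (hα : aeval (α ^ 2) (G (3 ^ j)) = 0) : (minpoly ℚ α).natDegree = 4 * 3 ^ j ∧
    IsIntegral ℤ α := by
  have hk : 3 ≤ 3 ^ j := by
    calc 3 = 3 ^ 1 := by norm_num
      _ ≤ 3 ^ j := Nat.pow_le_pow_right (by norm_num) hj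
  obtain ⟨hPm, hPd⟩ := comp_facts (3 ^ j) hk
  have hint : IsIntegral ℤ α := ⟨_, hPm, by
    rw [← aeval_def, aeval_comp, map_pow, aeval_X]; exact hα⟩
  have hmin := minpoly_eq j hj α hα
  refine ⟨?_, hint⟩
  rw [minpoly.isIntegrallyClosed_eq_field_fractions' ℚ hint, (minpoly.monic hint).natDegree_map,
    hmin, hPd]

theorem card_conjugates (j : ℕ) (hj : 1 ≤ j) (α : ℂ)
    (hα : aeval (α ^ 2) (G (3 ^ j)) = 0) : (conjugates α).card = 4 * 3 ^ j := by
  obtain ⟨hd, hint⟩ := natDegree_minpoly j hj α hα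
  have hirr : Irreducible (minpoly ℚ α) := minpoly.irreducible hint.tower_top
  have hsep := hirr.separable
  rw [conjugates, Multiset.toFinset_card_of_nodup (nodup_aroots_iff_of_splits
    (minpoly.ne_zero hint.tower_top) (IsAlgClosed.splits _) |>.mpr hsep), ← hd]
  have h := (IsAlgClosed.splits ((minpoly ℚ α).map (algebraMap ℚ ℂ))).natDegree_eq_card_roots
  rw [natDegree_map] at h
  exact h.symm

theorem sum_log (j : ℕ) (hj : 1 ≤ j) (α : ℂ)
    (hα : aeval (α ^ 2) (G (3 ^ j)) = 0) : ∑ z ∈ conjugates α, Real.log ‖z‖ = 0 := by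
  obtain ⟨hd, hint⟩ := natDegree_minpoly j hj α hα
  have hk : 3 ≤ 3 ^ j := by
    calc 3 = 3 ^ 1 := by norm_num
      _ ≤ 3 ^ j := Nat.pow_le_pow_right (by norm_num) hj
  have hmin := minpoly_eq j hj α hα
  have hirr : Irreducible (minpoly ℚ α) := minpoly.irreducible hint.tower_top
  have hsep := hirr.separable
  have hnodup : ((minpoly ℚ α).aroots ℂ).Nodup := nodup_aroots_iff_of_splits
    (minpoly.ne_zero hint.tower_top) (IsAlgClosed.splits _) |>.mpr hsep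
  have hmonic : (minpoly ℚ α).Monic := minpoly.monic hint.tower_top
  have hprod := Polynomial.Splits.coeff_zero_eq_prod_roots_of_monic
    (IsAlgClosed.splits ((minpoly ℚ α).map (algebraMap ℚ ℂ))) (hmonic.map _)
  have hc0 : ((minpoly ℚ α).map (algebraMap ℚ ℂ)).coeff 0 = 1 := by
    rw [minpoly.isIntegrallyClosed_eq_field_fractions' ℚ hint, hmin, Polynomial.map_map, coeff_map,
      coeff_zero_eq_eval_zero, eval_comp, G]
    have hpos : (3 ^ j) ≠ 0 := by positivity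
    simp [zero_pow hpos]
  rw [hc0] at hprod
  have hnorm : ‖((minpoly ℚ α).aroots ℂ).prod‖ = 1 := by
    have h2 := congrArg norm hprod
    rw [norm_mul, norm_pow, norm_neg, norm_one, one_pow, one_mul] at h2
    exact h2.symm
  have hfin : ∏ z ∈ conjugates α, ‖z‖ = 1 := by
    rw [← norm_prod, conjugates, Finset.prod_eq_multiset_prod, Multiset.toFinset_val,
      Multiset.dedup_eq_self.mpr hnodup, Multiset.map_id']
    exact hnorm
  have hne : ∀ z ∈ conjugates α, ‖z‖ ≠ 0 := by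
    intro z hz h0
    rw [Finset.prod_eq_zero hz h0] at hfin
    exact zero_ne_one hfin
  rw [← Real.log_prod hne, hfin, Real.log_one]

theorem odd_pow (j : ℕ) : Odd (3 ^ j) := (by decide : Odd 3).pow

/-- The two real roots of `G (3 ^ j)`. -/
theorem real_roots (j : ℕ) : ∃ r1 r2 : ℝ, r1 ≠ r2 ∧
    0 < r1 ∧ r1 < 1 / 2 ∧ rho (3 ^ j) ≤ r1 ∧ 0 < r2 ∧ r2 < 1 / 2 ∧ rho (3 ^ j) ≤ r2 ∧
    (∀ u : ℝ, aeval (u : ℂ) (G (3 ^ j)) = 0 ↔ u = r1 ∨ u = r2) := by
  obtain ⟨r1, h1, h1u⟩ := exists_real (3 ^ j) (odd_pow j) lam1 lam1_bounds.1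
  obtain ⟨r2, h2, h2u⟩ := exists_real (3 ^ j) (odd_pow j) lam2 lam2_bounds.1
  obtain ⟨a1, a2, a3⟩ := real_bounds (3 ^ j) (odd_pow j) lam1 lam1_bounds.1 r1 h1
  obtain ⟨b1, b2, b3⟩ := real_bounds (3 ^ j) (odd_pow j) lam2 lam2_bounds.1 r2 h2
  refine ⟨r1, r2, ?_, a1, a2, a3, b1, b2, b3, ?_⟩
  · rintro rfl
    rw [h1] at h2
    exact lam_ne (mul_right_cancel₀ (by linarith : 1 - 2 * r1 ≠ 0) h2)
  · intro u
    rw [root_iff]
    constructor
    · rintro (h | h)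
      · left; apply h1u; exact_mod_cast h
      · right; apply h2u; exact_mod_cast h
    · rintro (rfl | rfl)
      · left; exact_mod_cast h1
      · right; exact_mod_cast h2

/-- The real conjugates. -/
theorem real_conj (j : ℕ) (hj : 1 ≤ j) (α : ℂ)
    (hα : aeval (α ^ 2) (G (3 ^ j)) = 0) : ∃ r1 r2 : ℝ, r1 ≠ r2 ∧
    0 < r1 ∧ r1 < 1 / 2 ∧ rho (3 ^ j) ≤ r1 ∧ 0 < r2 ∧ r2 < 1 / 2 ∧ rho (3 ^ j) ≤ r2 ∧
    (conjugates α).filter (fun z => z.im = 0) =
      {((√r1 : ℝ) : ℂ), ((-√r1 : ℝ) : ℂ), ((√r2 : ℝ) : ℂ), ((-√r2 : ℝ) : ℂ)} := by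
  obtain ⟨r1, r2, hne, a1, a2, a3, b1, b2, b3, hroots⟩ := real_roots j
  refine ⟨r1, r2, hne, a1, a2, a3, b1, b2, b3, ?_⟩
  ext z
  rw [Finset.mem_filter, mem_conjugates j hj α hα]
  simp only [Finset.mem_insert, Finset.mem_singleton]
  constructor
  · rintro ⟨h, him⟩
    obtain ⟨x, rfl⟩ : ∃ x : ℝ, (x : ℂ) = z := ⟨z.re, by apply Complex.ext <;> simp [him]⟩
    have h' : aeval (((x ^ 2 : ℝ)) : ℂ) (G (3 ^ j)) = 0 := by
      push_cast; exact h
    rw [hroots] at h'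
    rcases h' with h' | h'
    · have : x = √r1 ∨ x = -√r1 := by
        rw [← sq_eq_sq_iff_eq_or_eq_neg, Real.sq_sqrt a1.le]; exact h'
      rcases this with rfl | rfl
      · exact Or.inl rfl
      · exact Or.inr (Or.inl rfl)
    · have : x = √r2 ∨ x = -√r2 := by
        rw [← sq_eq_sq_iff_eq_or_eq_neg, Real.sq_sqrt b1.le]; exact h'
      rcases this with rfl | rfl
      · exact Or.inr (Or.inr (Or.inl rfl))
      · exact Or.inr (Or.inr (Or.inr rfl))
  · have key : ∀ x : ℝ, (x ^ 2 = r1 ∨ x ^ 2 = r2) →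
        aeval ((x : ℂ) ^ 2) (G (3 ^ j)) = 0 ∧ (x : ℂ).im = 0 := by
      intro x hx
      refine ⟨?_, Complex.ofReal_im x⟩
      have := (hroots (x ^ 2)).mpr hx
      push_cast at this
      exact this
    rintro (rfl | rfl | rfl | rfl)
    · exact key _ (Or.inl (Real.sq_sqrt a1.le))
    · exact key _ (Or.inl (by rw [neg_sq, Real.sq_sqrt a1.le]))
    · exact key _ (Or.inr (Real.sq_sqrt b1.le))
    · exact key _ (Or.inr (by rw [neg_sq, Real.sq_sqrt b1.le]))

/-- A sum over the real conjugates. -/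
theorem sum_four (r1 r2 : ℝ) (h1 : 0 < r1) (h2 : 0 < r2) (hne : r1 ≠ r2) (f : ℂ → ℝ) :
    ∑ z ∈ ({((√r1 : ℝ) : ℂ), ((-√r1 : ℝ) : ℂ), ((√r2 : ℝ) : ℂ), ((-√r2 : ℝ) : ℂ)} : Finset ℂ), f z =
      f ((√r1 : ℝ) : ℂ) + f ((-√r1 : ℝ) : ℂ) + f ((√r2 : ℝ) : ℂ) + f ((-√r2 : ℝ) : ℂ) := by
  have s1 : 0 < √r1 := Real.sqrt_pos.mpr h1
  have s2 : 0 < √r2 := Real.sqrt_pos.mpr h2
  have s12 : √r1 ≠ √r2 := by
    intro h
    exact hne ((Real.sqrt_inj h1.le h2.le).mp h)
  rw [Finset.sum_insert, Finset.sum_insert, Finset.sum_insert, Finset.sum_singleton]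
  · ring
  · rw [Finset.mem_singleton, Complex.ofReal_inj]
    linarith
  · rw [Finset.mem_insert, Finset.mem_singleton, Complex.ofReal_inj, Complex.ofReal_inj]
    rintro (h | h)
    · linarith
    · exact s12 (by linarith)
  · rw [Finset.mem_insert, Finset.mem_insert, Finset.mem_singleton, Complex.ofReal_inj,
      Complex.ofReal_inj, Complex.ofReal_inj]
    rintro (h | h | h)
    · linarith
    · exact s12 h
    · linarith

theorem card_four (r1 r2 : ℝ) (h1 : 0 < r1) (h2 : 0 < r2) (hne : r1 ≠ r2) :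
    ({((√r1 : ℝ) : ℂ), ((-√r1 : ℝ) : ℂ), ((√r2 : ℝ) : ℂ), ((-√r2 : ℝ) : ℂ)} : Finset ℂ).card = 4 := by
  have h := sum_four r1 r2 h1 h2 hne (fun _ => 1)
  rw [Finset.sum_const, nsmul_eq_mul, mul_one] at h
  have : (4 : ℝ) = 1 + 1 + 1 + 1 := by norm_num
  rw [← this] at h
  exact_mod_cast h

theorem nonreal_sq (j : ℕ) (z : ℂ) (hz : aeval (z ^ 2) (G (3 ^ j)) = 0) (him : z.im ≠ 0) :
    (z ^ 2).im ≠ 0 := by
  intro h0
  obtain ⟨r1, r2, hne, a1, a2, a3, b1, b2, b3, hroots⟩ := real_roots j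
  obtain ⟨x, hx⟩ : ∃ x : ℝ, (x : ℂ) = z ^ 2 :=
    ⟨(z ^ 2).re, by apply Complex.ext <;> simp [h0]⟩
  rw [← hx, hroots] at hz
  have hx0 : 0 < x := by rcases hz with rfl | rfl <;> assumption
  have h1 : z ^ 2 = ((√x : ℝ) : ℂ) ^ 2 := by
    rw [← hx, ← Complex.ofReal_pow, Real.sq_sqrt hx0.le]
  rw [sq_eq_sq_iff_eq_or_eq_neg] at h1
  apply him
  rcases h1 with rfl | rfl
  · exact Complex.ofReal_im _
  · rw [Complex.neg_im, Complex.ofReal_im, neg_zero]

theorem nonreal_log (j : ℕ) (hj : 1 ≤ j) (z : ℂ) (hz : aeval (z ^ 2) (G (3 ^ j)) = 0)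
    (him : z.im ≠ 0) : z ≠ 0 ∧ |Real.log (‖z‖ ^ 2)| ≤ del (3 ^ j) := by
  have hk : 3 ≤ 3 ^ j := by
    calc 3 = 3 ^ 1 := by norm_num
      _ ≤ 3 ^ j := Nat.pow_le_pow_right (by norm_num) hj
  have hsq := nonreal_sq j z hz him
  have hz0 : z ≠ 0 := by rintro rfl; exact him rfl
  refine ⟨hz0, ?_⟩
  have hb : 2 / (3 * ((3 ^ j : ℕ) : ℝ)) ≤ ‖z ^ 2‖ ^ (3 ^ j - 1) ∧
      ‖z ^ 2‖ ^ (3 ^ j - 1) ≤ 9 := by
    rw [root_iff] at hz
    rcases hz with h | h
    · exact nonreal_bounds (3 ^ j) (by omega) lam1 lam1_bounds.1 lam1_bounds.2 _ hsq h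
    · exact nonreal_bounds (3 ^ j) (by omega) lam2 lam2_bounds.1 lam2_bounds.2 _ hsq h
  rw [norm_pow] at hb
  generalize 3 ^ j = k at hk hb
  have hk3 : (3 : ℝ) ≤ k := by exact_mod_cast hk
  have hy0 : 0 < ‖z‖ ^ 2 := pow_pos (norm_pos_iff.mpr hz0) 2
  generalize ‖z‖ ^ 2 = y at hb hy0
  have hk1 : ((k - 1 : ℕ) : ℝ) = (k : ℝ) - 1 := by
    rw [Nat.cast_sub (by omega)]; norm_num
  have hL : Real.log (y ^ (k - 1)) = ((k : ℝ) - 1) * Real.log y := by
    rw [Real.log_pow, hk1]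
  have h1 : Real.log (2 / (3 * (k : ℝ))) ≤ ((k : ℝ) - 1) * Real.log y := by
    rw [← hL]
    exact Real.log_le_log (by positivity) hb.1
  have h2 : ((k : ℝ) - 1) * Real.log y ≤ Real.log 9 := by
    rw [← hL]
    exact Real.log_le_log (pow_pos hy0 _) hb.2
  have h3 : Real.log (2 / (3 * (k : ℝ))) = - Real.log (3 * k / 2) := by
    rw [← Real.log_inv]; congr 1; rw [inv_div]
  have h9 : 0 ≤ Real.log 9 := Real.log_nonneg (by norm_num)
  have h4 : 0 ≤ Real.log (3 * k / 2) := Real.log_nonneg (by linarith)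
  rw [h3] at h1
  rw [del, le_div_iff₀ (by linarith)]
  nth_rewrite 1 [← abs_of_nonneg (by linarith : (0 : ℝ) ≤ k - 1)]
  rw [← abs_mul, abs_le, mul_comm (Real.log y)]
  constructor <;> linarith

theorem main_bound (j : ℕ) (hj : 1 ≤ j) (hdel : del (3 ^ j) ≤ 1) (hrho : 0 < rho (3 ^ j))
    (α : ℂ) (hα : aeval (α ^ 2) (G (3 ^ j)) = 0) :
    ((conjugates α).filter (fun z => z.im = 0)).card = 4 ∧
    squareSize α ≤ 2 + (2 * ((3 ^ j : ℕ) : ℝ) - 2) * (1 + del (3 ^ j) ^ 2) -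
      2 * Real.log (rho (3 ^ j)) := by
  obtain ⟨r1, r2, hne, a1, a2, a3, b1, b2, b3, hreal⟩ := real_conj j hj α hα
  have hcard := card_four r1 r2 a1 b1 hne
  have hcardr : ((conjugates α).filter (fun z => z.im = 0)).card = 4 := by rw [hreal]; exact hcard
  refine ⟨hcardr, ?_⟩
  have hsplit := Finset.sum_filter_add_sum_filter_not (conjugates α) (fun z => z.im = 0)
    (fun z => Real.log ‖z‖)
  rw [sum_log j hj α hα, hreal, sum_four r1 r2 a1 b1 hne] at hsplit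
  have hcs := Finset.card_filter_add_card_filter_not (s := conjugates α) (fun z => z.im = 0)
  rw [hcardr, card_conjugates j hj α hα] at hcs
  have hnorm : ∀ x : ℝ, 0 < x → ‖((√x : ℝ) : ℂ)‖ = √x ∧ ‖((-√x : ℝ) : ℂ)‖ = √x := by
    intro x hx
    rw [Complex.norm_real, Complex.norm_real, norm_neg, Real.norm_eq_abs,
      abs_of_nonneg (Real.sqrt_nonneg x)]
    exact ⟨rfl, rfl⟩
  rw [(hnorm r1 a1).1, (hnorm r1 a1).2, (hnorm r2 b1).1, (hnorm r2 b1).2] at hsplit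
  rw [squareSize, hreal, sum_four r1 r2 a1 b1 hne, (hnorm r1 a1).1, (hnorm r1 a1).2,
    (hnorm r2 b1).1, (hnorm r2 b1).2, Real.sq_sqrt a1.le, Real.sq_sqrt b1.le]
  have hl : ∀ x : ℝ, 0 < x → Real.log x = 2 * Real.log √x := by
    intro x hx
    rw [Real.log_sqrt hx.le]; ring
  have hl1 := hl r1 a1
  have hl2 := hl r2 b1
  have hr1 : Real.log (rho (3 ^ j)) ≤ Real.log r1 := Real.log_le_log hrho a3
  have hr2 : Real.log (rho (3 ^ j)) ≤ Real.log r2 := Real.log_le_log hrho b3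
  -- the nonreal part
  have hbound : ∀ z ∈ (conjugates α).filter (fun z => z.im ≠ 0),
      ‖z‖ ^ 2 ≤ 1 + 2 * Real.log ‖z‖ + del (3 ^ j) ^ 2 := by
    intro z hz
    rw [Finset.mem_filter, mem_conjugates j hj α hα] at hz
    obtain ⟨hz0, hlog⟩ := nonreal_log j hj z hz.1 hz.2
    have hy0 : 0 < ‖z‖ ^ 2 := pow_pos (norm_pos_iff.mpr hz0) 2
    have h1 := Real.abs_exp_sub_one_sub_id_le (hlog.trans hdel)
    rw [Real.exp_log hy0] at h1
    have h2 : Real.log (‖z‖ ^ 2) ^ 2 ≤ del (3 ^ j) ^ 2 := by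
      rw [← sq_abs]
      exact pow_le_pow_left₀ (abs_nonneg _) hlog 2
    have h3 := (abs_le.mp h1).2
    have h4 : Real.log (‖z‖ ^ 2) = 2 * Real.log ‖z‖ := by
      rw [Real.log_pow]; norm_num
    linarith
  have hsum := Finset.sum_le_sum hbound
  have hcs' : (((conjugates α).filter (fun z => z.im ≠ 0)).card : ℝ) =
      4 * ((3 ^ j : ℕ) : ℝ) - 4 := by
    have : (((4 + ((conjugates α).filter (fun z => z.im ≠ 0)).card : ℕ)) : ℝ) =
      ((4 * 3 ^ j : ℕ) : ℝ) := by exact_mod_cast hcs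
    push_cast at this ⊢
    linarith
  rw [Finset.sum_add_distrib, Finset.sum_add_distrib, Finset.sum_const, Finset.sum_const,
    nsmul_eq_mul, nsmul_eq_mul, hcs', ← Finset.mul_sum] at hsum
  have hsplit' : ∑ z ∈ (conjugates α).filter (fun z => z.im ≠ 0), Real.log ‖z‖ =
      -(Real.log r1 + Real.log r2) := by
    linarith
  rw [hsplit'] at hsum
  linarith

theorem tendsto_del : Tendsto (fun k : ℕ => (2 * (k : ℝ) - 2) * del k ^ 2) atTop (𝓝 0) := by
  have h1 : Tendsto (fun x : ℝ => Real.log x ^ 2 / x) atTop (𝓝 0) :=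
    (Real.isLittleO_pow_log_id_atTop (n := 2)).tendsto_div_nhds_zero
  have h2 : Tendsto (fun k : ℕ => 27 / 2 * (k : ℝ)) atTop atTop :=
    (tendsto_natCast_atTop_atTop (R := ℝ)).const_mul_atTop (by norm_num)
  have h3 := (h1.comp h2).const_mul 54
  rw [mul_zero] at h3
  refine squeeze_zero' ?_ ?_ h3
  · filter_upwards [eventually_ge_atTop 2] with k hk
    have hk2 : (2 : ℝ) ≤ k := by exact_mod_cast hk
    have : 0 ≤ 2 * (k : ℝ) - 2 := by linarith
    positivity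
  · filter_upwards [eventually_ge_atTop 2] with k hk
    have hk2 : (2 : ℝ) ≤ k := by exact_mod_cast hk
    have e1 : Real.log (3 * k / 2) + Real.log 9 = Real.log (27 / 2 * k) := by
      rw [← Real.log_mul (by positivity) (by norm_num)]
      congr 1; ring
    have hpos : (0 : ℝ) < k - 1 := by linarith
    have hk0 : (0 : ℝ) < k := by linarith
    have e2 : (2 * (k : ℝ) - 2) * del k ^ 2 = 2 * Real.log (27 / 2 * k) ^ 2 * (1 / (k - 1)) := by
      rw [del, e1]; field_simp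
    have e3 : (54 : ℝ) * ((fun x : ℝ => Real.log x ^ 2 / x) ∘ fun k : ℕ => 27 / 2 * (k : ℝ)) k =
        2 * Real.log (27 / 2 * k) ^ 2 * (2 / k) := by
      simp only [Function.comp]
      field_simp
      ring
    rw [e2, e3]
    apply mul_le_mul_of_nonneg_left _ (by positivity)
    rw [div_le_div_iff₀ hpos hk0]
    linarith

theorem tendsto_rho : Tendsto (fun k : ℕ => rho k) atTop (𝓝 (1 / 2)) := by
  have h : Tendsto (fun k : ℕ => ((1 : ℝ) / 2) ^ k) atTop (𝓝 0) :=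
    tendsto_pow_atTop_nhds_zero_of_lt_one (by norm_num) (by norm_num)
  have h2 := (tendsto_const_nhds (x := (1 : ℝ) / 2)).sub (h.const_mul (3 / 2))
  rw [mul_zero, sub_zero] at h2
  exact h2

theorem rhs_bound (k : ℕ) (hk : 1 ≤ k) :
    2 * (k : ℝ) + 2 * Real.log 2 ≤
      ((4 * k : ℕ) : ℝ) * (2 : ℝ) ^ ((4 : ℝ) / ((4 * k : ℕ) : ℝ) - 1) := by
  have hk0 : (0 : ℝ) < k := by exact_mod_cast hk
  push_cast
  have e : (4 : ℝ) / (4 * k) = 1 / k := by
    field_simp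
  rw [e, Real.rpow_sub_one (by norm_num), Real.rpow_def_of_pos (by norm_num)]
  have h := Real.add_one_le_exp (Real.log 2 * (1 / k))
  have h2 : 2 * (k : ℝ) * (Real.log 2 * (1 / k) + 1) ≤
      2 * (k : ℝ) * Real.exp (Real.log 2 * (1 / k)) :=
    mul_le_mul_of_nonneg_left h (by positivity)
  have h3 : 2 * (k : ℝ) * (Real.log 2 * (1 / k) + 1) = 2 * k + 2 * Real.log 2 := by
    field_simp; ring
  linarith

/-- **Full answer to Q1 (yes, already with `s = 4`).** For every `ε > 0` there is a non-zero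
algebraic integer `α`, of degree `n ≥ 2`, with exactly four real conjugates, whose absolute square
size is less than `n * 2 ^ (4 / n - 1) + ε`. -/
theorem result : ∀ ε : ℝ, 0 < ε → ∃ α : ℂ, α ≠ 0 ∧ IsIntegral ℤ α ∧
    2 ≤ (minpoly ℚ α).natDegree ∧
    ((conjugates α).filter (fun z => z.im = 0)).card = 4 ∧
    squareSize α <
      (minpoly ℚ α).natDegree * (2 : ℝ) ^ ((4 : ℝ) / (minpoly ℚ α).natDegree - 1) + ε := by
  intro ε hε
  have hlim : Tendsto (fun k : ℕ => (2 * (k : ℝ) - 2) * del k ^ 2 - 2 * Real.log (rho k) -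
      2 * Real.log 2) atTop (𝓝 0) := by
    have h1 : Tendsto (fun k : ℕ => Real.log (rho k)) atTop (𝓝 (Real.log (1 / 2))) :=
      tendsto_rho.log (by norm_num)
    have h2 := (tendsto_del.sub (h1.const_mul 2)).sub_const (2 * Real.log 2)
    have e : (0 : ℝ) - 2 * Real.log (1 / 2) - 2 * Real.log 2 = 0 := by
      rw [one_div, Real.log_inv]; ring
    rw [e] at h2
    exact h2
  have hpow : Tendsto (fun j : ℕ => 3 ^ j) atTop atTop := by
    exact tendsto_pow_atTop_atTop_of_one_lt (by norm_num)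
  have ev1 := hpow.eventually (hlim.eventually (gt_mem_nhds hε))
  have ev2 := hpow.eventually (tendsto_del.eventually (gt_mem_nhds one_pos))
  have ev3 := hpow.eventually (tendsto_rho.eventually (lt_mem_nhds (by norm_num : (0 : ℝ) < 1 / 2)))
  obtain ⟨j, h1, h2, h3, hj⟩ := (ev1.and (ev2.and (ev3.and (eventually_ge_atTop 1)))).exists
  have hk : 3 ≤ 3 ^ j := by
    calc 3 = 3 ^ 1 := by norm_num
      _ ≤ 3 ^ j := Nat.pow_le_pow_right (by norm_num) hj
  have hk3 : (3 : ℝ) ≤ ((3 ^ j : ℕ) : ℝ) := by exact_mod_cast hk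
  have hdel0 : 0 ≤ del (3 ^ j) := by
    rw [del]
    have a := Real.log_nonneg (by linarith : (1 : ℝ) ≤ 3 * ((3 ^ j : ℕ) : ℝ) / 2)
    have b : 0 ≤ Real.log 9 := Real.log_nonneg (by norm_num)
    have c : (0 : ℝ) ≤ ((3 ^ j : ℕ) : ℝ) - 1 := by linarith
    positivity
  have hdel1 : del (3 ^ j) ≤ 1 := by
    by_contra hcon
    push Not at hcon
    have : 1 ≤ del (3 ^ j) ^ 2 := one_le_pow₀ hcon.le
    nlinarith
  -- a root
  obtain ⟨u, hu⟩ : ∃ u : ℂ, aeval u (G (3 ^ j)) = 0 := by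
    obtain ⟨r1, r2, hne, a1, a2, a3, b1, b2, b3, hroots⟩ := real_roots j
    exact ⟨r1, (hroots r1).mpr (Or.inl rfl)⟩
  obtain ⟨α, hα2⟩ : ∃ α : ℂ, α ^ 2 = u := IsAlgClosed.exists_pow_nat_eq u (by norm_num)
  have hα : aeval (α ^ 2) (G (3 ^ j)) = 0 := by rw [hα2]; exact hu
  obtain ⟨hdeg, hint⟩ := natDegree_minpoly j hj α hα
  obtain ⟨hcard, hsize⟩ := main_bound j hj hdel1 h3 α hα
  refine ⟨α, ?_, hint, ?_, hcard, ?_⟩
  · rintro rfl
    rw [root_iff] at hα
    have hz : ((0 : ℂ) ^ 2) ^ (3 ^ j) = 0 := by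
      rw [← pow_mul]; exact zero_pow (by positivity)
    rw [hz] at hα
    rcases hα with h | h
    · have : lam1 = 0 := by
        have h' : (lam1 : ℂ) = 0 := by rw [h]; ring
        exact_mod_cast h'
      have := lam1_bounds.1
      linarith
    · have : lam2 = 0 := by
        have h' : (lam2 : ℂ) = 0 := by rw [h]; ring
        exact_mod_cast h'
      have := lam2_bounds.1
      linarith
  · rw [hdeg]; omega
  · rw [hdeg]
    have h4 := rhs_bound (3 ^ j) (by omega)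
    have h5 : squareSize α < 2 * ((3 ^ j : ℕ) : ℝ) + 2 * Real.log 2 + ε := by
      linarith
    linarith

end Pool.Agent.Results.MP_bf7c2b_nt.SharpForFour
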